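import Pool.Agent.Helper18.SG.Goals

/-!
# Project SG (MP_d3128a_ag), packet F0: sorting the points
-/

set_option autoImplicit false

namespace Pool.Agent.Helper59.SG

open Finset Pool.Agent.Helper18.SG

theorem enumDec (mm : ℕ → ℕ) : ∀ (n : ℕ) (A : Finset ℕ), A.card = n →
    ∃ e : ℕ → ℕ, (∀ c < n, e c ∈ A) ∧ (∀ c < n, ∀ c' < n, e c = e c' → c = c') ∧
      ∀ c c', c ≤ c' → c' < n → mm (e c') ≤ mm (e c) := by
  intro n
  induction n with
  | zero =>
    intro A _
    exact ⟨fun _ => 0, by simp, by simp, fun c c' _ h => absurd h (Nat.not_lt_zero _)⟩
  | succ n ih =>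
    intro A hA
    have hne : A.Nonempty := by
      rw [← Finset.card_pos, hA]; exact Nat.succ_pos n
    obtain ⟨k, hk, hmin⟩ := A.exists_min_image mm hne
    have hcard : (A.erase k).card = n := by
      rw [Finset.card_erase_of_mem hk, hA]; rfl
    obtain ⟨e, h1, h2, h3⟩ := ih (A.erase k) hcard
    refine ⟨fun c => if c < n then e c else k, ?_, ?_, ?_⟩
    · intro c _
      by_cases hc : c < n
      · simp only [hc, if_true]
        exact Finset.mem_of_mem_erase (h1 c hc)
      · simp only [hc, if_false]
        exact hk
    · intro c hc c' hc' h
      by_cases hcn : c < n <;> by_cases hcn' : c' < n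
      · simp only [hcn, hcn', if_true] at h
        exact h2 c hcn c' hcn' h
      · simp only [hcn, hcn', if_true, if_false] at h
        have := h1 c hcn
        rw [h] at this
        simp at this
      · simp only [hcn, hcn', if_true, if_false] at h
        have := h1 c' hcn'
        rw [← h] at this
        simp at this
      · omega
    · intro c c' hcc hc'
      by_cases hcn' : c' < n
      · have hcn : c < n := lt_of_le_of_lt hcc hcn'
        simp only [hcn, hcn', if_true]
        exact h3 c c' hcc hcn'
      · by_cases hcn : c < n
        · simp only [hcn, hcn', if_true, if_false]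
          exact hmin _ (Finset.mem_of_mem_erase (h1 c hcn))
        · simp only [hcn, hcn', if_false]
          exact le_rfl

theorem goalF0 : Pool.Agent.Helper18.SG.GoalF0 := by
  intro M A mm hM hA
  obtain ⟨e, h1, h2, h3⟩ := enumDec mm A.card A rfl
  refine ⟨e, fun c => if c < A.card then mm (e c) else 1, ?_, ?_, ?_, h2, ?_⟩
  · intro c c' hcc
    simp only
    by_cases hc' : c' < A.card
    · have hc : c < A.card := lt_of_le_of_lt hcc hc'
      simp only [hc, hc', if_true]
      exact h3 c c' hcc hc'
    · by_cases hc : c < A.card
      · simp only [hc, hc', if_true, if_false]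
        exact (hA _ (h1 c hc)).1
      · simp only [hc, hc', if_false]
        exact le_rfl
  · intro c
    by_cases hc : c < A.card
    · simp only [hc, if_true]
      exact hA _ (h1 c hc)
    · simp only [hc, if_false]
      exact ⟨le_rfl, hM⟩
  · intro c hc
    refine ⟨h1 c hc, ?_⟩
    simp only [hc, if_true]
  · have himg : (range A.card).image e = A := by
      apply Finset.eq_of_subset_of_card_le
      · intro x hx
        obtain ⟨c, hc, rfl⟩ := Finset.mem_image.1 hx
        exact h1 c (Finset.mem_range.1 hc)
      · rw [Finset.card_image_of_injOn, Finset.card_range]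
        intro c hc c' hc' h
        exact h2 c (by simpa using hc) c' (by simpa using hc') h
    have hs : ∑ k ∈ A, (mm k + 1).choose 2 = ∑ k ∈ (range A.card).image e, (mm k + 1).choose 2 := by
      rw [himg]
    rw [hs, Finset.sum_image]
    · refine Finset.sum_congr rfl fun c hc => ?_
      have hc' : c < A.card := Finset.mem_range.1 hc
      simp only [hc', if_true]
    · intro c hc c' hc' h
      exact h2 c (by simpa using hc) c' (by simpa using hc') h

end Pool.Agent.Helper59.SG
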