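import Pool.Agent.Helper52.SG.Goals

/-!
# SG-ILF (MP_0a002a_al): an infinite locally finite subgroup of a Shunkov group in the class `LG`
-/

set_option autoImplicit false

namespace Pool.Agent.Helper59.SG.ILF

open Subgroup Pool.H83Shunkov Pool.Agent.Helper29.SH Pool.Agent.Helper52.SG

/-- an element of the quotient by a finite normal subgroup has finite order only if its lifts have -/
theorem finOrder_lift {G : Type} [Group G] (T : Subgroup G) [T.Normal] (hT : (T : Set G).Finite)
    (t : G) (ht : IsOfFinOrder (QuotientGroup.mk' T t)) : IsOfFinOrder t := by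
  obtain ⟨n, hn, hpow⟩ := isOfFinOrder_iff_pow_eq_one.1 ht
  have h1 : t ^ n ∈ T := by
    rw [← map_pow] at hpow
    exact (QuotientGroup.eq_one_iff _).1 hpow
  exact (isOfFinOrder_of_mem_finite hT h1).of_pow hn.ne'

/-- the conjugate of the preimage of `⟨z⟩` under a lift of an element commuting with `z` -/
theorem conj_mem_preim {G : Type} [Group G] (N : Subgroup G) (T : Subgroup N) [T.Normal]
    (z : N ⧸ T) (t : N) (ht : QuotientGroup.mk' T t * z = z * QuotientGroup.mk' T t) (x : G)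
    (hx : x ∈ ((zpowers z).comap (QuotientGroup.mk' T)).map N.subtype) :
    (t : G) * x * (t : G)⁻¹ ∈ ((zpowers z).comap (QuotientGroup.mk' T)).map N.subtype := by
  obtain ⟨y, hy, rfl⟩ := hx
  refine ⟨t * y * t⁻¹, ?_, rfl⟩
  obtain ⟨k, hk⟩ := mem_zpowers_iff.1 (show QuotientGroup.mk' T y ∈ zpowers z from hy)
  show QuotientGroup.mk' T (t * y * t⁻¹) ∈ zpowers z
  have hc : Commute (QuotientGroup.mk' T t) (z ^ k) :=
    Commute.zpow_right ht k
  rw [map_mul, map_mul, map_inv, ← hk, hc.eq, mul_inv_cancel_right]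
  exact zpow_mem (mem_zpowers z) k

theorem t (hFIT : S_FIT) (hPFIN : S_PFIN) (hCOR : S_COR) (hLGS : S_LGS) (hLGF : S_LGF) :
    Pool.Agent.Helper52.SG.S_ILF := by
  intro G _ hSh hInf hLG
  by_contra hno
  obtain ⟨M, ⟨hMf, hMT⟩, hmax⟩ := h_MAX G 1 hno
    (fun M => (M : Set G).Finite ∧ (Tor (normalizer (M : Set G))).Infinite)
    (fun M h => ⟨one_mem M, h.1⟩) ⟨⊥, by simp, by
      have hn : normalizer ((⊥ : Subgroup G) : Set G) = ⊤ :=
        normalizer_eq_top_iff.2 inferInstance
      have h1 : Tor (normalizer ((⊥ : Subgroup G) : Set G)) = {g : G | IsOfFinOrder g} := by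
        rw [hn]
        ext t
        exact ⟨fun h => h.2, fun h => ⟨mem_top t, h⟩⟩
      rw [h1]
      exact hInf⟩
  set N : Subgroup G := normalizer (M : Set G) with hN
  set T : Subgroup N := M.subgroupOf N with hT
  have hTn : T.Normal := normal_in_normalizer
  have hTf : (T : Set N).Finite := by
    refine Set.Finite.of_finite_image (f := N.subtype) (hMf.subset ?_) N.subtype_injective.injOn
    rintro x ⟨y, hy, rfl⟩
    exact mem_subgroupOf.1 hy
  have hShN : IsShunkov N := h_SSUB G N N.subtype N.subtype_injective hSh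
  have hShZ : IsShunkov (N ⧸ T) := h_SQUO N T hTf hShN
  have hLGZ : LG (N ⧸ T) := hLGF N T hTf (hLGS G N N.subtype N.subtype_injective hLG)
  have hInfN : InfTor N := by
    intro hfin
    refine hMT ((hfin.image N.subtype).subset ?_)
    rintro x ⟨hxY, hx⟩
    refine ⟨⟨x, hxY⟩, ?_, rfl⟩
    exact (Submonoid.isOfFinOrder_coe (H := N.toSubmonoid)).1 hx
  have hInfZ : InfTor (N ⧸ T) := Pool.Agent.Helper13.SH.infTor_quot T hTf hInfN
  -- (1)
  have h1 : ∀ z : N ⧸ T, (orderOf z).Prime → (Tor (centralizer ({z} : Set (N ⧸ T)))).Finite := by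
    intro z hz
    by_contra hinf
    have hzfin : IsOfFinOrder z := orderOf_pos_iff.1 hz.pos
    have hz1 : z ≠ 1 := by
      rintro rfl
      rw [orderOf_one] at hz
      exact Nat.not_prime_one hz
    set M₁ : Subgroup G := ((zpowers z).comap (QuotientGroup.mk' T)).map N.subtype with hM₁
    have hM₁f : (M₁ : Set G).Finite := by
      have hzf : ((zpowers z : Subgroup (N ⧸ T)) : Set (N ⧸ T)).Finite := by
        have : Finite (zpowers z) := finite_zpowers.2 hzfin
        exact Set.toFinite _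
      exact (Pool.Agent.Helper13.SH.fnl_fin_preim T hTf _ hzf).image N.subtype
    have hMM₁ : M ≤ M₁ := by
      intro m hm
      have hmN : m ∈ N := le_normalizer hm
      refine ⟨⟨m, hmN⟩, ?_, rfl⟩
      show QuotientGroup.mk' T ⟨m, hmN⟩ ∈ zpowers z
      have h2 : QuotientGroup.mk' T ⟨m, hmN⟩ = 1 :=
        (QuotientGroup.eq_one_iff _).2 (mem_subgroupOf.2 hm)
      rw [h2]
      exact one_mem _
    have hM₁T : (Tor (normalizer (M₁ : Set G))).Infinite := by
      intro hfin
      apply hinf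
      have hsub : N.subtype '' (QuotientGroup.mk' T ⁻¹' (Tor (centralizer ({z} : Set (N ⧸ T)))))
          ⊆ Tor (normalizer (M₁ : Set G)) := by
        rintro x ⟨t, ⟨ht1, ht2⟩, rfl⟩
        have htf : IsOfFinOrder t := finOrder_lift T hTf t ht2
        have htc : QuotientGroup.mk' T t * z = z * QuotientGroup.mk' T t :=
          mem_centralizer_singleton_iff.1 ht1
        refine ⟨?_, N.subtype.isOfFinOrder htf⟩
        rw [mem_normalizer_iff]
        intro x
        refine ⟨fun hx => conj_mem_preim N T z t htc x hx, fun hx => ?_⟩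
        have htc' : QuotientGroup.mk' T t⁻¹ * z = z * QuotientGroup.mk' T t⁻¹ := by
          rw [map_inv]
          exact (Commute.inv_left (show Commute (QuotientGroup.mk' T t) z from htc)).eq
        have h3 := conj_mem_preim N T z t⁻¹ htc' _ hx
        have e : ((t⁻¹ : N) : G) * (N.subtype t * x * (N.subtype t)⁻¹) * ((t⁻¹ : N) : G)⁻¹ = x := by
          rw [Subgroup.coe_inv, Subgroup.coe_subtype]
          group
        rwa [e] at h3
      have h4 := (hfin.subset hsub)
      have h5 : (QuotientGroup.mk' T ⁻¹' (Tor (centralizer ({z} : Set (N ⧸ T))))).Finite :=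
        Set.Finite.of_finite_image h4 N.subtype_injective.injOn
      refine (h5.image (QuotientGroup.mk' T)).subset ?_
      intro y hy
      obtain ⟨n, rfl⟩ := QuotientGroup.mk'_surjective T y
      exact ⟨n, hy, rfl⟩
    have h6 : M₁ ≤ M := hmax M₁ ⟨hM₁f, hM₁T⟩ hMM₁
    obtain ⟨n, hn⟩ := QuotientGroup.mk'_surjective T z
    have h7 : (n : G) ∈ M₁ := ⟨n, by
      show QuotientGroup.mk' T n ∈ zpowers z
      rw [hn]
      exact mem_zpowers z, rfl⟩
    have h8 : n ∈ T := mem_subgroupOf.2 (h6 h7)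
    exact hz1 (by rw [← hn]; exact (QuotientGroup.eq_one_iff _).2 h8)
  -- (2)
  have h2 : ∀ z : N ⧸ T, ¬ InLF z := by
    rintro z ⟨K, -, hKi, hKl⟩
    refine hno ⟨(K.comap (QuotientGroup.mk' T)).map N.subtype, one_mem _, ?_,
      (Pool.Agent.Helper13.SH.comap_locFin T hTf K hKl).map _⟩
    rw [coe_map]
    exact (Pool.Agent.Helper13.SH.comap_infinite T K hKi).image N.subtype_injective.injOn
  -- (3)
  have h3 : ∀ z : N ⧸ T, (orderOf z).Prime → orderOf z = 2 := by
    intro z hz
    by_contra hz2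
    exact h2 z (hCOR (N ⧸ T) z hShZ hInfZ hLGZ hz hz2 (h1 z hz))
  obtain ⟨y, hy, hy1⟩ : ∃ y : N ⧸ T, IsOfFinOrder y ∧ y ≠ 1 := by
    by_contra hc
    push Not at hc
    exact hInfZ ((Set.finite_singleton (1 : N ⧸ T)).subset fun y hy => hc y hy)
  have key : ∀ (w : N ⧸ T) (q : ℕ), IsOfFinOrder w → q.Prime → q ∣ orderOf w →
      orderOf (w ^ (orderOf w / q)) = q := fun w q hw hq hd =>
    orderOf_pow_orderOf_div hw.orderOf_pos.ne' hd
  obtain ⟨p, hp, hpd⟩ := Nat.exists_prime_and_dvd
    (show orderOf y ≠ 1 from fun h => hy1 (orderOf_eq_one_iff.1 h))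
  set z : N ⧸ T := y ^ (orderOf y / p) with hz
  have hzo : orderOf z = p := key y p hy hp hpd
  have hzp : (orderOf z).Prime := by rw [hzo]; exact hp
  have hz2 : orderOf z = 2 := h3 z hzp
  have hSt : St z 2 := ⟨hShZ, Nat.prime_two, hz2, h1 z hzp, h2 z⟩
  obtain ⟨D, -, hDf, hzD, hD⟩ := hPFIN (N ⧸ T) z 2 hSt ⊤ (mem_top z) (by
    intro K _ hKf _ g
    have hgf : IsOfFinOrder (g : N ⧸ T) := isOfFinOrder_of_mem_finite hKf g.2
    rcases Nat.eq_two_pow_or_exists_odd_prime_and_dvd (orderOf (g : N ⧸ T)) with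
      ⟨k, hk⟩ | ⟨q, hq, hqd, hqo⟩
    · refine ⟨k, Subtype.ext ?_⟩
      rw [Subgroup.coe_pow, ← hk, pow_orderOf_eq_one, Subgroup.coe_one]
    · exfalso
      have h4 := key (g : N ⧸ T) q hgf hq hqd
      have h5 := h3 _ (by rw [h4]; exact hq)
      rw [h4] at h5
      rw [h5] at hqo
      exact absurd hqo (by decide))
  have hcf : (centralizer ({z} : Set (N ⧸ T))).FiniteIndex := by
    refine Pool.Agent.Helper13.SH.cen_finiteIndex z (D : Set (N ⧸ T)) hDf fun g => ?_
    have h4 : Pr z g⁻¹ ≤ D := hD _ le_top (hSt.pair g⁻¹) (subset_closure (by simp))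
    have h5 : g⁻¹⁻¹ * z * g⁻¹ ∈ Pr z g⁻¹ := subset_closure (by simp)
    have h6 := h4 h5
    rwa [inv_inv] at h6
  exact hInfZ (hFIT (N ⧸ T) hShZ _ hcf (h1 z hzp)).1

end Pool.Agent.Helper59.SG.ILF
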