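import Pool.Agent.Helper52.SG.Goals2

/-!
# SG-TRI (MP_0a002a_al): an elementary abelian group of order `r²` does not act freely
-/

set_option autoImplicit false

namespace Pool.Agent.Helper59.SG.TRI

open Subgroup Pool.H83Shunkov Pool.Agent.Helper29.SH Pool.Agent.Helper52.SG

section ab

variable {A : Type} [CommGroup A]

theorem end_mul_apply (f g : Monoid.End A) (w : A) : (f * g) w = f (g w) := rfl

theorem nrm_one (δ : Monoid.End A) (r : ℕ) (hδ : δ ^ r = 1) (hf : ∀ w, δ w = w → w = 1) (w : A) :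
    ∏ j ∈ Finset.range r, (δ ^ j) w = 1 := by
  apply hf
  rw [map_prod]
  have h1 : ∀ j, δ ((δ ^ j) w) = (δ ^ (j + 1)) w := fun j => by
    rw [pow_succ', end_mul_apply]
  simp only [h1]
  have h2 := Finset.prod_range_succ (fun j => (δ ^ j) w) r
  have h3 := Finset.prod_range_succ' (fun j => (δ ^ j) w) r
  rw [h2, hδ, pow_zero] at h3
  exact (mul_right_cancel h3).symm

theorem fix_pow (γ : Monoid.End A) (w : A) (h : γ w = w) (i : ℕ) : (γ ^ i) w = w := by
  induction i with
  | zero => rfl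
  | succ i ih => rw [pow_succ', end_mul_apply, ih, h]

theorem tri_ab (β γ : Monoid.End A) (r : ℕ) (hr : r.Prime) (hbc : Commute β γ) (hβ : β ^ r = 1)
    (hγ : γ ^ r = 1) (fγ : ∀ w, γ w = w → w = 1) (fk : ∀ (k : ℕ) (w : A), (γ ^ k * β) w = w → w = 1)
    (w : A) : w ^ r = 1 := by
  -- the double product
  have h1 : ∏ k ∈ Finset.range r, ∏ j ∈ Finset.range r, ((γ ^ k * β) ^ j) w = 1 := by
    refine Finset.prod_eq_one fun k _ => nrm_one _ r ?_ (fk k) w
    have hc : Commute (γ ^ k) β := (hbc.symm.pow_left k)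
    rw [hc.mul_pow, hβ, mul_one, ← pow_mul, mul_comm k r, pow_mul, hγ, one_pow]
  rw [Finset.prod_comm] at h1
  have h2 : ∀ j ∈ Finset.range r, ∏ k ∈ Finset.range r, ((γ ^ k * β) ^ j) w =
      if j = 0 then w ^ r else 1 := by
    intro j hj
    have hj' := Finset.mem_range.1 hj
    by_cases hj0 : j = 0
    · subst hj0
      rw [if_pos rfl]
      simp only [pow_zero]
      rw [Finset.prod_const, Finset.card_range]
      rfl
    · rw [if_neg hj0]
      have h3 : ∀ k, ((γ ^ k * β) ^ j) w = ((γ ^ j) ^ k) ((β ^ j) w) := by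
        intro k
        have hc : Commute (γ ^ k) β := (hbc.symm.pow_left k)
        rw [hc.mul_pow, end_mul_apply, ← pow_mul, mul_comm k j, pow_mul]
      simp only [h3]
      refine nrm_one (γ ^ j) r ?_ ?_ _
      · rw [← pow_mul, mul_comm j r, pow_mul, hγ, one_pow]
      · intro v hv
        apply fγ
        have hcop : Nat.Coprime j r := by
          refine Nat.Coprime.symm ((Nat.Prime.coprime_iff_not_dvd hr).2 ?_)
          exact Nat.not_dvd_of_pos_of_lt (Nat.pos_of_ne_zero hj0) hj'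
        obtain ⟨i, hi⟩ := Nat.exists_mul_mod_eq_one_of_coprime hcop hr.one_lt
        have h4 : γ ^ (j * i) = γ := by
          rw [← Nat.div_add_mod (j * i) r, pow_add, pow_mul, hγ, one_pow, one_mul, hi.2, pow_one]
        have h5 := fix_pow (γ ^ j) v hv i
        rw [← pow_mul, h4] at h5
        exact h5
  rw [Finset.prod_congr rfl h2, Finset.prod_ite_eq' (Finset.range r) 0 (fun _ => w ^ r),
    if_pos (Finset.mem_range.2 hr.pos)] at h1
  exact h1

end ab

/-- conjugation by an element which normalises `W` -/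
def cm {M : Type} [Group M] (W : Subgroup M) (b : M) (hb : ∀ w ∈ W, b⁻¹ * w * b ∈ W) :
    Monoid.End W where
  toFun w := ⟨b⁻¹ * w * b, hb w w.2⟩
  map_one' := Subtype.ext (by simp)
  map_mul' x y := Subtype.ext (by
    show b⁻¹ * (↑x * ↑y) * b = (b⁻¹ * ↑x * b) * (b⁻¹ * ↑y * b)
    group)

theorem cm_pow {M : Type} [Group M] (W : Subgroup M) (b : M) (hb : ∀ w ∈ W, b⁻¹ * w * b ∈ W)
    (k : ℕ) (w : W) : (((cm W b hb) ^ k) w : M) = (b ^ k)⁻¹ * w * b ^ k := by
  induction k with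
  | zero => simp
  | succ k ih =>
    rw [pow_succ']
    show b⁻¹ * (((cm W b hb) ^ k) w : M) * b = _
    rw [ih, pow_succ]
    group

theorem cm_one {M : Type} [Group M] (W : Subgroup M) (b : M) (hb : ∀ w ∈ W, b⁻¹ * w * b ∈ W)
    (r : ℕ) (h : b ^ r = 1) : (cm W b hb) ^ r = 1 := by
  refine MonoidHom.ext fun x => Subtype.ext ?_
  have h1 : (((cm W b hb) ^ r) x : M) = x := by
    rw [cm_pow, h]
    simp
  exact h1

theorem t : Pool.Agent.Helper52.SG.S_TRI := by
  intro M _ W b c r hr hWf hWc hrW hb hc hbc hbr hcr fc fk w hw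
  let inst : CommGroup W := { (inferInstance : Group W) with
    mul_comm := fun x y => Subtype.ext (hWc x x.2 y y.2) }
  have : Finite W := hWf.to_subtype
  have key : (⟨w, hw⟩ : W) ^ r = 1 := by
    refine tri_ab (A := W) (cm W b hb) (cm W c hc) r hr ?_ ?_ ?_ ?_ ?_ _
    · refine MonoidHom.ext fun x => Subtype.ext ?_
      show b⁻¹ * (c⁻¹ * ↑x * c) * b = c⁻¹ * (b⁻¹ * ↑x * b) * c
      have h1 : c * b = b * c := hbc.symm
      have h2 : b⁻¹ * c⁻¹ = c⁻¹ * b⁻¹ := by rw [← mul_inv_rev, ← mul_inv_rev, h1]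
      calc b⁻¹ * (c⁻¹ * ↑x * c) * b = (b⁻¹ * c⁻¹) * ↑x * (c * b) := by group
        _ = (c⁻¹ * b⁻¹) * ↑x * (b * c) := by rw [h1, h2]
        _ = c⁻¹ * (b⁻¹ * ↑x * b) * c := by group
    · exact cm_one W b hb r hbr
    · exact cm_one W c hc r hcr
    · intro x hx
      have h1 : c⁻¹ * ↑x * c = (x : M) := congrArg Subtype.val hx
      refine Subtype.ext (fc x x.2 ?_)
      calc (x : M) * c = c * (c⁻¹ * ↑x * c) := by group
        _ = c * x := by rw [h1]
    · intro k x hx
      have h1 : (c ^ k)⁻¹ * (b⁻¹ * ↑x * b) * c ^ k = (x : M) := by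
        have h2 : ((((cm W c hc) ^ k) ((cm W b hb) x) : W) : M) = x := congrArg Subtype.val hx
        rw [cm_pow] at h2
        exact h2
      refine Subtype.ext (fk k x x.2 ?_)
      calc (x : M) * (b * c ^ k) = (b * c ^ k) * ((c ^ k)⁻¹ * (b⁻¹ * ↑x * b) * c ^ k) := by group
        _ = (b * c ^ k) * x := by rw [h1]
  have h1 : orderOf (⟨w, hw⟩ : W) ∣ r := orderOf_dvd_of_pow_eq_one key
  have h2 : orderOf (⟨w, hw⟩ : W) ∣ Nat.card W := orderOf_dvd_natCard _
  rcases (Nat.dvd_prime hr).1 h1 with h3 | h3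
  · exact congrArg Subtype.val (orderOf_eq_one_iff.1 h3)
  · rw [h3] at h2
    exact absurd h2 hrW

end Pool.Agent.Helper59.SG.TRI
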